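import Mathlib
import Pool.Agent.Helper93.Cyc.Step3

/-! The chain group is never 1-cyclotomic. -/

namespace Pool.Agent.Results.MP_cf27b7_al.NotCyclotomic

open Pool.Agent.Helper93.Cyc

/-- For every prime `p` and every `d ≥ 3`, the pro-`p` group on `x_i, y_i` (`i < d`) with relations
`[x_i, y_i] = [x_{i+1}, y_{i+1}]` is not 1-cyclotomic: it has no orientation `θ` for which it is
1-cyclotomic. -/
theorem result (p : ℕ) [Fact p.Prime] (d : ℕ) (hd : 3 ≤ d) :
    ¬ IsOneCyclotomic p (ChainGroup p d) :=
  main p d hd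

end Pool.Agent.Results.MP_cf27b7_al.NotCyclotomic
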